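import Pool.Agent.H.MP_fbd347.A

set_option autoImplicit false
open Set Filter Topology TopologicalSpace

namespace Pool.Agent.H.MP_cbb19f
open MP_e9bccb (LS toU ofU fip fcl Ls cC)
open MP_fbd347 (C Up Gd gd den)

variable {X : Type} [TopologicalSpace X]

theorem lsX [T35Space X] (h : LS (univ : Set (C (C X)))) : LS (univ : Set X) := by
  obtain ⟨N, hN⟩ := toU h
  let e : X → C (C X) := fun x => ⟨fun g => g.1 x, (continuous_apply x).comp continuous_subtype_val⟩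
  refine ofU (fun i => e ⁻¹' N i) fun x _ U k => ?_
  obtain ⟨φ, -, hφ⟩ := hN (e x) trivial (U.map e) k
  have hφ : ∀ g : C X, Tendsto g.1 U (𝓝 (φ.1 g)) := tendsto_pi_nhds.1 (tendsto_subtype_rng.1 hφ)
  by_contra! c
  obtain ⟨O, O1, O2⟩ := isOpen_induced_iff.1 (isOpen_ne_fun φ.2 (continuous_const (y := 1)))
  obtain ⟨S, u, h1, h2⟩ := isOpen_pi_iff.1 O1 0 ((Set.ext_iff.1 O2 ⟨0, continuous_zero⟩).2 (by
    rw [mem_ofPred_eq, ← tendsto_nhds_unique tendsto_const_nhds (hφ ⟨0, continuous_zero⟩)]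
    exact zero_ne_one))
  have : ∀ y, ∃ g : X → unitInterval, Continuous g ∧ g y = 0 ∧ ∀ᶠ t in U, g t = 1 := fun y => by
    obtain ⟨V, V1, V2⟩ := not_forall₂.1 (mt (nhds_basis_opens y).ge_iff.2 (c y trivial))
    obtain ⟨g, g1, g2, g3⟩ := CompletelyRegularSpace.completely_regular y _ V1.2.isClosed_compl
      (not_not.2 V1.1)
    exact ⟨g, g1, g2, mem_of_superset (U.compl_mem_iff_notMem.2 V2) g3⟩
  choose g g1 g2 g3 using this
  let f : C X := ⟨fun t => ∏ y ∈ S, (g y t : ℝ), by fun_prop⟩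
  refine (Set.ext_iff.1 O2 f).1 (h2 fun y l => mem_of_eq_of_mem (Finset.prod_eq_zero l
    (congrArg Subtype.val (g2 y))) (h1 y l).2) (tendsto_nhds_unique (hφ f)
      (tendsto_nhds_of_eventually_eq ((S.eventually_all.2 fun y _ => g3 y).mono fun t l =>
        Finset.prod_eq_one fun y m => congrArg Subtype.val (l y m))))

theorem tyU (h : LS (univ : Set (C X))) : ∃ B : ℕ → Set X, ∀ y, ∀ U : Ultrafilter X,
    (∀ j, y ∈ B j → B j ∈ U) → ∃ v ∈ Up X, ∀ g : C X, Tendsto g.1 U (𝓝 (v g)) := by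
  obtain ⟨N, hN⟩ := toU h
  obtain ⟨s, hs⟩ := exists_surjective_nat (Finset ℕ × ℕ)
  refine ⟨fun j => {y | ∀ g ∈ ⋂ i ∈ (s j).1, N i, |g.1 y| ≤ (s j).2}, fun y U k => ?_⟩
  have : ∀ g : C X, ∃ r : ℝ, ↑(U.map g.1) ≤ 𝓝 r := fun g => by
    obtain ⟨j, j1, j2⟩ : ∃ j, g ∈ ⋂ i ∈ (s j).1, N i ∧ ∀ g ∈ ⋂ i ∈ (s j).1, N i,
        |g.1 y| ≤ (s j).2 := by
      by_contra! c
      obtain ⟨V, V1, V2⟩ := fip (N := N) (z := g) (G := comap (fun f => |f.1 y|) atTop) fun t l =>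
        inf_neBot_iff.2 fun a ha b hb => by
          obtain ⟨r, -, hr⟩ := (atTop_basis.comap _).mem_iff.1 ha
          obtain ⟨n, hn⟩ := exists_nat_ge r
          obtain ⟨j, hj⟩ := hs (t, n)
          obtain ⟨f, f1, f2⟩ := c j (hj ▸ l)
          rw [hj] at f1 f2
          exact ⟨f, hr (hn.trans f2.le), hb f1⟩
      obtain ⟨w, -, hw⟩ := hN g trivial V V2
      exact not_tendsto_nhds_of_tendsto_atTop (tendsto_iff_comap.2 V1) _
        (tendsto_pi_nhds.1 (tendsto_subtype_rng.1 (tendsto_id'.2 hw)) y).abs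
    exact (isCompact_Icc.ultrafilter_le_nhds' (U.map g.1) (Ultrafilter.mem_map.2 (mem_of_superset
      (k j j2) fun t l => abs_le.1 (l g j1)))).imp fun _ l => l.2
  choose v hv using this
  exact ⟨v, mem_closure_of_tendsto (tendsto_pi_nhds.2 hv) (.of_forall fun t => ⟨t, rfl⟩), hv⟩

def TY (B : ℕ → Set (C X)) : Prop := ∀ g, ∀ U : Ultrafilter (C X), (∀ j, g ∈ B j → B j ∈ U) →
  ∃ h : X → ℝ, (∀ x, Tendsto (fun f : C X => f.1 x) U (𝓝 (h x))) ∧ ∀ A : Set X, A.Countable → ∀ f : C X,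
    EqOn h f.1 A → EqOn h f.1 (closure A)

theorem tyY (h : LS (univ : Set (C (C X)))) : ∃ B : ℕ → Set (C X), TY B := by
  let e : X → C (C X) := fun x => ⟨fun g => g.1 x, (continuous_apply x).comp continuous_subtype_val⟩
  refine (tyU h).imp fun B hB g U k => ?_
  obtain ⟨v, v1, v2⟩ := hB g U k
  refine ⟨fun x => v (e x), fun x => v2 (e x), fun A a f l y m => ?_⟩
  obtain ⟨u, hu⟩ := gd v1 ((a.insert y).image e)
  exact (hu _ ⟨y, .inl rfl, rfl⟩).symm.trans ((isClosed_eq u.2 f.2).closure_subset_iff.2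
    (fun t b => (hu _ ⟨t, .inr b, rfl⟩).trans (l b)) m)

theorem grd (hs : ∀ D : Set X, DiscreteTopology D → D.Countable) (H : Set (X × C X))
    (h : ∀ p ∈ H, p.2.1 p.1 = 1) : ∃ S ⊆ H, S.Countable ∧ ∀ p ∈ H,
      p.1 ∈ closure (Prod.fst '' S) ∨ ∃ q ∈ S, 1 / 2 < q.2.1 p.1 := by
  let r : X × C X → X × C X → Prop := WellOrderingRel
  have w : WellFounded r := IsWellFounded.wf
  let S : X × C X → Prop := w.fix fun p ih => p ∈ H ∧ p.1 ∉ closure (Prod.fst ''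
    {q | ∃ l : r q p, ih q l}) ∧ ∀ q, ∀ l : r q p, ih q l → q.2.1 p.1 ≤ 1 / 2
  have e : ∀ p, S p ↔ p ∈ H ∧ p.1 ∉ closure (Prod.fst '' {q | ∃ _ : r q p, S q}) ∧
      ∀ q, r q p → S q → q.2.1 p.1 ≤ 1 / 2 := fun p => (w.fix_eq _ p).to_iff
  refine ⟨{p | S p}, fun p l => ((e p).1 l).1, countable_of_injective_of_countable_image
    (f := Prod.fst) (fun p a q b l => ?_) (hs _ (discreteTopology_subtype_iff'.2 ?_)),
      fun p l => by_contra fun c => ?_⟩
  · obtain m | m | m := trichotomous_of r p q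
    exacts [(((e q).1 b).2.1 (subset_closure ⟨p, ⟨m, a⟩, l⟩)).elim, m,
      (((e p).1 a).2.1 (subset_closure ⟨q, ⟨m, b⟩, l.symm⟩)).elim]
  · rintro _ ⟨p, a, rfl⟩
    refine ⟨{x | 1 / 2 < p.2.1 x} \ closure (Prod.fst '' {q | ∃ _ : r q p, S q}), (isOpen_lt
      continuous_const p.2.2).sdiff isClosed_closure, eq_singleton_iff_unique_mem.2 ⟨⟨⟨one_half_lt_one.trans_eq (h p
        ((e p).1 a).1).symm, ((e p).1 a).2.1⟩, p, a, rfl⟩, ?_⟩⟩
    rintro _ ⟨l, q, b, rfl⟩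
    obtain m | rfl | m := trichotomous_of r p q
    exacts [(l.1.not_ge (((e q).1 b).2.2 p m a)).elim, rfl, (l.2 (subset_closure
      ⟨q, ⟨m, b⟩, rfl⟩)).elim]
  · have := (e p).2 ⟨l, fun m => c (.inl (closure_mono (image_mono fun q b => b.2) m)),
      fun q _ b => not_lt.1 fun m => c (.inr ⟨q, b, m⟩)⟩
    exact c (.inl (subset_closure ⟨p, this, rfl⟩))

theorem pick {ι Z : Type} [Countable ι] (S : ι → Set Z) :
    ∃ D : Set Z, D.Countable ∧ ∀ i, (S i).Nonempty → (D ∩ S i).Nonempty := by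
  choose d hd using fun i : {i // (S i).Nonempty} => i.2
  exact ⟨_, countable_range d, fun i e => ⟨_, ⟨⟨i, e⟩, rfl⟩, hd ⟨i, e⟩⟩⟩

theorem sep [T35Space X] (hs : ∀ D : Set X, DiscreteTopology D → D.Countable)
    (h : LS (univ : Set X)) {B : ℕ → Set (C X)} (hB : TY B) : SeparableSpace X := by
  classical
  obtain _ | ⟨⟨x0⟩⟩ := isEmpty_or_nonempty X
  · infer_instance
  obtain ⟨N, hN⟩ := toU h
  choose S S1 S2 S3 using fun (l : List (X × C X)) (s : Finset ℕ) => grd hs {p | p.2.1 p.1 = 1 ∧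
    (∀ q ∈ l, p.2.1 q.1 = 0) ∧ ∀ j ∈ s, p.2 ∈ B j} fun _ e => e.1
  choose D D1 D2 using fun l : List (X × C X) => pick fun c : Finset ℕ × (Fin l.length → ℚ) × ℕ =>
    {x | (∀ j ∈ c.1, x ∈ N j) ∧ ∀ i, dist (l[i].2.1 x) (c.2.1 i : ℝ) < 1 / ((c.2.2 : ℝ) + 1)}
  obtain ⟨cl, c1, c2, -, c4⟩ := fcl (F := fun l => (⋃ s, S l s) ∪ D l ×ˢ {⟨0, continuous_zero⟩})
    fun l => (countable_iUnion (S2 l)).union ((D1 l).prod (countable_singleton _))
  have T1 := Cardinal.le_aleph0_iff_set_countable.1 (c4 {(x0, ⟨0, continuous_zero⟩)} _ le_rfl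
    (cC le_rfl (countable_singleton _)))
  obtain ⟨t, ht⟩ := T1.exists_eq_range ⟨_, c1 _ rfl⟩
  have c2 := fun k => c2 _ ((List.range k).map t) fun p e =>
    ht.ge (let ⟨i, _, e⟩ := List.mem_map.1 e; ⟨i, e⟩)
  refine ⟨_, T1.image Prod.fst, fun x => by_contra fun c => ?_⟩
  obtain ⟨g, g1, g2, g3⟩ := CompletelyRegularSpace.completely_regular x _ isClosed_closure c
  let g' : C X := ⟨fun y => 1 - g y, by fun_prop⟩
  choose q q1 q2 using fun k => (S3 ((List.range k).map t) ((Finset.range k).filter (g' ∈ B ·))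
    (x, g') ⟨by simp [g', g2], fun p e => by
      obtain ⟨i, -, rfl⟩ := List.mem_map.1 e
      simp [g', g3 (subset_closure ⟨_, ht.ge ⟨i, rfl⟩, rfl⟩)], fun j e =>
        (Finset.mem_filter.1 e).2⟩).resolve_left fun e => c (closure_mono (image_mono
          fun p a => c2 k (.inl (mem_iUnion.2 ⟨_, a⟩))) e)
  obtain ⟨f, f1, f2⟩ := hB g' ((hyperfilter ℕ).map fun k => (q k).2) fun j e =>
    Nat.hyperfilter_le_atTop ((eventually_gt_atTop j).mono fun k a => (S1 _ _ (q1 k)).2.2 j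
      (Finset.mem_filter.2 ⟨Finset.mem_range.2 a, e⟩))
  have : ∀ k : ℕ, ∃ y ∈ Prod.fst '' cl {(x0, ⟨0, continuous_zero⟩)}, (∀ j < k, x ∈ N j → y ∈ N j) ∧
      ∀ i < k, dist ((t i).2.1 y) ((t i).2.1 x) ≤ 2 * (1 / ((k : ℝ) + 1)) := fun k => by
    choose r hr using fun i : Fin ((List.range k).map t).length => exists_rat_near
      (((List.range k).map t)[i].2.1 x) (Nat.one_div_pos_of_nat (n := k))
    obtain ⟨y, y1, y2, y3⟩ := D2 _ ((Finset.range k).filter (x ∈ N ·), r, k)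
      ⟨x, fun j e => (Finset.mem_filter.1 e).2, hr⟩
    refine ⟨y, ⟨_, c2 k (.inr (mk_mem_prod y1 rfl)), rfl⟩, fun j a b => y2 j (Finset.mem_filter.2
      ⟨Finset.mem_range.2 a, b⟩), fun i a => ?_⟩
    have := y3 ⟨i, by simpa⟩
    have := hr ⟨i, by simpa⟩
    simp only [Fin.getElem_fin, List.getElem_map, List.getElem_range, Real.dist_eq, abs_lt,
      abs_le] at *
    constructor <;> linarith
  choose y y1 y2 y3 using this
  obtain ⟨w, -, hw⟩ := hN x trivial ((hyperfilter ℕ).map y) fun j e =>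
    Nat.hyperfilter_le_atTop ((eventually_gt_atTop j).mono fun k a => y2 k j a e)
  have e : ∀ k, (q k).2.1 w = (q k).2.1 x := fun k => by
    obtain ⟨i, e⟩ := ht.le (c2 k (.inl (mem_iUnion.2 ⟨_, q1 k⟩)))
    refine tendsto_nhds_unique (((q k).2.2.tendsto w).comp hw) (e ▸ (tendsto_iff_dist_tendsto_zero.2
      (squeeze_zero' (.of_forall fun _ => dist_nonneg) ((eventually_gt_atTop i).mono
        fun n => y3 n i) ?_)).mono_left Nat.hyperfilter_le_atTop)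
    simpa using tendsto_one_div_add_atTop_nhds_zero_nat.const_mul (2 : ℝ)
  have := ge_of_tendsto (x := hyperfilter ℕ) (f := fun k => (q k).2.1 w) (f1 w) (.of_forall fun k =>
    (q2 k).le.trans (e k).ge)
  rw [f2 _ (T1.image Prod.fst) ⟨0, continuous_zero⟩ ?_ (mem_closure_of_tendsto hw
    (.of_forall y1))] at this
  · norm_num at this
  · rintro _ ⟨p, a, rfl⟩
    obtain ⟨i, rfl⟩ := ht.le a
    exact tendsto_nhds_unique (f1 _) (tendsto_nhds_of_eventually_eq (Nat.hyperfilter_le_atTop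
      ((eventually_gt_atTop i).mono fun k a => (S1 _ _ (q1 k)).2.1 _
        (List.mem_map_of_mem (List.mem_range.2 a)))))

theorem net [T35Space X] [SeparableSpace X] {B : ℕ → Set (C X)} (hB : TY B) :
    ∃ 𝒩 : Set (Set X), 𝒩.Countable ∧ ∀ x U, IsOpen U → x ∈ U → ∃ N ∈ 𝒩, x ∈ N ∧ N ⊆ U := by
  obtain ⟨A, A1, A2⟩ := exists_countable_dense X
  have := A1.to_subtype
  let P : ℕ ⊕ countableBasis (A → ℝ) → Set (C X) := Sum.elim B fun O => {g | (fun a : A => g.1 a) ∈ O.1}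
  refine ⟨_, countable_range fun s : Finset _ => {x | ∀ g ∈ ⋂ i ∈ s, P i, g.1 x < 1},
    fun x U a b => by_contra fun c => ?_⟩
  obtain ⟨g, g1, g2, g3⟩ := CompletelyRegularSpace.completely_regular x _ a.isClosed_compl
    (not_not.2 b)
  let g' : C X := ⟨fun y => g y, by fun_prop⟩
  obtain ⟨V, V1, V2⟩ := fip (N := P) (z := g') (G := 𝓟 {f | 1 ≤ f.1 x}) fun s e => by
    rw [inf_principal, principal_neBot_iff]
    by_contra l
    exact c ⟨_, ⟨s, rfl⟩, fun f m => not_le.1 fun r => l ⟨f, r, m⟩, fun y m => by_contra fun r =>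
      (m g' e).ne (congrArg Subtype.val (g3 r))⟩
  obtain ⟨f, f1, f2⟩ := hB g' V fun j => V2 (.inl j)
  have := ge_of_tendsto (f1 x) (le_principal_iff.1 V1)
  rw [f2 A A1 g' (fun y l => tendsto_nhds_unique (f1 y) (tendsto_pi_nhds.1 ((isBasis_countableBasis
    (A → ℝ)).nhds_hasBasis.tendsto_right_iff.2 fun O m => V2 (.inr ⟨O, m.1⟩) m.2) ⟨y, l⟩))
      (A2 x)] at this
  simp [g', g2] at this
  exact this.not_gt one_pos

end Pool.Agent.H.MP_cbb19f
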